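import Pool.Agent.Helper10.Ram.Lib
import Pool.Agent.Helper50.Ram.RamGalg

set_option autoImplicit false

namespace Pool.Agent.Helper68.Ram

open Pool.Agent.Helper10.Ram
open Pool.Agent.Helper50.Ram (den_pos act_mem act_mul act_one)
open Complex MeasureTheory Topology

theorem isOpen_UH : IsOpen UH := isOpen_lt continuous_const continuous_snd

/-- numerator of the first coordinate of `act g p` -/
noncomputable def num (g : SL2C) (p : Pt) : ℂ :=
  (g 0 0 * p.1 + g 0 1) * (starRingEnd ℂ) (g 1 0 * p.1 + g 1 1)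
      + g 0 0 * (starRingEnd ℂ) (g 1 0) * (p.2 : ℂ) ^ 2

theorem act_eq (g : SL2C) (p : Pt) : act g p = (num g p / (den g p : ℂ), p.2 / den g p) := rfl

theorem continuous_den (g : SL2C) : Continuous (den g) := by
  unfold den; fun_prop

theorem continuous_num (g : SL2C) : Continuous (num g) := by
  unfold num; fun_prop

theorem measurable_act (g : SL2C) : Measurable (act g) := by
  have h1 : Measurable fun p : Pt => num g p / ((den g p : ℝ) : ℂ) :=
    (continuous_num g).measurable.div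
      (Complex.continuous_ofReal.measurable.comp (continuous_den g).measurable)
  have h2 : Measurable fun p : Pt => p.2 / den g p :=
    measurable_snd.div (continuous_den g).measurable
  exact h1.prodMk h2

theorem contDiff_den (g : SL2C) : ContDiff ℝ 2 (den g) := by
  unfold den
  have h : ContDiff ℝ 2 fun p : Pt => g 1 0 * p.1 + g 1 1 := by fun_prop
  exact (h.norm_sq ℝ).add (contDiff_const.mul (contDiff_snd.pow 2))

theorem contDiff_num (g : SL2C) : ContDiff ℝ 2 (num g) := by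
  unfold num
  have h : ContDiff ℝ 2 fun p : Pt => (starRingEnd ℂ) (g 1 0 * p.1 + g 1 1) :=
    Complex.conjCLE.contDiff.comp (by fun_prop)
  have h' : ContDiff ℝ 2 fun p : Pt => ((p.2 : ℝ) : ℂ) :=
    Complex.ofRealCLM.contDiff.comp contDiff_snd
  have h'' : ContDiff ℝ 2 fun p : Pt => g 0 0 * p.1 + g 0 1 := by fun_prop
  exact (h''.mul h).add (contDiff_const.mul (h'.pow 2))

theorem contDiffOn_act (g : SL2C) : ContDiffOn ℝ 2 (act g) UH := by
  have hd : ContDiffOn ℝ 2 (fun p : Pt => (den g p)⁻¹) UH :=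
    (contDiff_den g).contDiffOn.inv fun p hp => (den_pos g hp).ne'
  have h1 : ContDiffOn ℝ 2 (fun p : Pt => ((den g p)⁻¹) • num g p) UH :=
    hd.smul (contDiff_num g).contDiffOn
  have h2 : ContDiffOn ℝ 2 (fun p : Pt => p.2 * (den g p)⁻¹) UH :=
    contDiff_snd.contDiffOn.mul hd
  refine (h1.prodMk h2).congr fun p hp => ?_
  rw [act_eq]
  refine Prod.ext ?_ ?_
  · simp only [Complex.real_smul, Complex.ofReal_inv]
    rw [div_eq_inv_mul]
  · simp only [div_eq_mul_inv]

theorem differentiableAt_act (g : SL2C) {p : Pt} (hp : p ∈ UH) : DifferentiableAt ℝ (act g) p :=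
  ((contDiffOn_act g).contDiffAt (isOpen_UH.mem_nhds hp)).differentiableAt (by norm_num)

theorem det_eq (g : SL2C) : g 0 0 * g 1 1 - g 0 1 * g 1 0 = 1 := by
  have := g.det_coe
  rwa [Matrix.det_fin_two] at this

/-- `conj (c z + d)` -/
noncomputable def al (g : SL2C) (p : Pt) : ℂ := (starRingEnd ℂ) (g 1 0 * p.1 + g 1 1)

/-- `conj c * r` -/
noncomputable def be (g : SL2C) (p : Pt) : ℂ := (starRingEnd ℂ) (g 1 0) * (p.2 : ℂ)

theorem den_eq (g : SL2C) (p : Pt) : den g p = ‖al g p‖ ^ 2 + ‖be g p‖ ^ 2 := by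
  unfold den al be
  rw [norm_mul, mul_pow, RCLike.norm_conj, RCLike.norm_conj, Complex.norm_real,
    Real.norm_eq_abs, sq_abs]

theorem den_eq_complex (g : SL2C) (p : Pt) :
    ((den g p : ℝ) : ℂ) = (g 1 0 * p.1 + g 1 1) * (starRingEnd ℂ) (g 1 0 * p.1 + g 1 1)
      + g 1 0 * (starRingEnd ℂ) (g 1 0) * (p.2 : ℂ) ^ 2 := by
  unfold den
  rw [Complex.mul_conj', Complex.mul_conj']
  push_cast
  ring

/-- the derivative of `act g` at `p` in direction `e` -/
noncomputable def Lv (g : SL2C) (p e : Pt) : Pt :=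
  ((al g p ^ 2 * e.1 - be g p ^ 2 * (starRingEnd ℂ) e.1 + 2 * al g p * be g p * (e.2 : ℂ))
      / (den g p : ℂ) ^ 2,
    ((‖al g p‖ ^ 2 - ‖be g p‖ ^ 2) * e.2 - 2 * (al g p * (starRingEnd ℂ) (be g p) * e.1).re)
      / (den g p) ^ 2)

theorem hasDerivAt_lin (a b z h : ℂ) :
    HasDerivAt (fun t : ℝ => a * (z + (t : ℂ) * h) + b) (a * h) 0 := by
  have h0 : HasDerivAt (fun t : ℝ => (t : ℂ)) 1 (0 : ℝ) := Complex.ofRealCLM.hasDerivAt
  have := ((h0.mul_const h).const_add z).const_mul a |>.add_const b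
  simpa using this

theorem hasDerivAt_conj {f : ℝ → ℂ} {f' : ℂ} {t : ℝ} (h : HasDerivAt f f' t) :
    HasDerivAt (fun s => (starRingEnd ℂ) (f s)) ((starRingEnd ℂ) f') t :=
  Complex.conjCLE.toContinuousLinearMap.hasFDerivAt.comp_hasDerivAt t h

theorem hasLineDerivAt_act (g : SL2C) {p : Pt} (hp : p ∈ UH) (e : Pt) :
    HasLineDerivAt ℝ (act g) (Lv g p e) p e := by
  unfold HasLineDerivAt
  have hD : (den g p : ℂ) ≠ 0 := by exact_mod_cast (den_pos g hp).ne'
  have hW := hasDerivAt_lin (g 1 0) (g 1 1) p.1 e.1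
  have hU := hasDerivAt_lin (g 0 0) (g 0 1) p.1 e.1
  have hR : HasDerivAt (fun t : ℝ => p.2 + t * e.2) e.2 0 := by
    simpa using ((hasDerivAt_id (0 : ℝ)).mul_const e.2).const_add p.2
  have hRc : HasDerivAt (fun t : ℝ => ((p.2 + t * e.2 : ℝ) : ℂ)) (e.2 : ℂ) 0 :=
    hR.ofReal_comp
  have hWc := hasDerivAt_conj hW
  have hN := (hU.mul hWc).add ((hRc.pow 2).const_mul (g 0 0 * (starRingEnd ℂ) (g 1 0)))
  have hDc := (hW.mul hWc).add ((hRc.pow 2).const_mul (g 1 0 * (starRingEnd ℂ) (g 1 0)))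
  have hDc' : HasDerivAt (fun t : ℝ => ((den g (p + t • e) : ℝ) : ℂ))
      (g 1 0 * e.1 * (starRingEnd ℂ) (g 1 0 * p.1 + g 1 1)
        + (g 1 0 * p.1 + g 1 1) * (starRingEnd ℂ) (g 1 0 * e.1)
        + g 1 0 * (starRingEnd ℂ) (g 1 0) * (2 * p.2 * e.2)) 0 := by
    refine (hDc.congr_deriv ?_).congr_of_eventuallyEq (Filter.Eventually.of_forall fun t => ?_)
    · simp
    · simp only [den_eq_complex]
      simp [Prod.fst_add, Prod.snd_add]
  have hN' : HasDerivAt (fun t : ℝ => num g (p + t • e))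
      (g 0 0 * e.1 * (starRingEnd ℂ) (g 1 0 * p.1 + g 1 1)
        + (g 0 0 * p.1 + g 0 1) * (starRingEnd ℂ) (g 1 0 * e.1)
        + g 0 0 * (starRingEnd ℂ) (g 1 0) * (2 * p.2 * e.2)) 0 := by
    refine (hN.congr_deriv ?_).congr_of_eventuallyEq (Filter.Eventually.of_forall fun t => ?_)
    · simp
    · simp [num, Prod.fst_add, Prod.snd_add]
  have hDr : HasDerivAt (fun t : ℝ => den g (p + t • e))
      (2 * (g 1 0 * (starRingEnd ℂ) (g 1 0 * p.1 + g 1 1) * e.1).re + 2 * ‖g 1 0‖ ^ 2 * p.2 * e.2)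
      0 := by
    have h := Complex.reCLM.hasFDerivAt.comp_hasDerivAt 0 hDc'
    refine (h.congr_deriv ?_).congr_of_eventuallyEq (Filter.Eventually.of_forall fun t => ?_)
    · rw [Complex.sq_norm, Complex.normSq_apply]
      simp only [Complex.reCLM_apply, Complex.add_re, Complex.mul_re, Complex.mul_im, map_mul,
        Complex.conj_re, Complex.conj_im, Complex.ofReal_re, Complex.ofReal_im, Complex.add_im,
        Complex.re_ofNat, Complex.im_ofNat]
      ring
    · simp
  have h0 : p + (0 : ℝ) • e = p := by simp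
  have hZ := hN'.div hDc' (by simpa [h0] using hD)
  have hR' : HasDerivAt (fun t : ℝ => (p + t • e).2) e.2 0 := by
    refine hR.congr_of_eventuallyEq (Filter.Eventually.of_forall fun t => ?_)
    simp
  have hY := hR'.div hDr (by simpa [h0] using (den_pos g hp).ne')
  have hpair := hZ.prodMk hY
  refine (hpair.congr_deriv ?_).congr_of_eventuallyEq (Filter.Eventually.of_forall fun t => ?_)
  · have hdet := det_eq g
    refine Prod.ext ?_ ?_
    · simp only [Lv, h0]
      congr 1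
      rw [den_eq_complex, num, al, be, map_mul]
      linear_combination ((starRingEnd ℂ) (g 1 0 * p.1 + g 1 1) ^ 2 * e.1
        - ((starRingEnd ℂ) (g 1 0) * p.2) ^ 2 * (starRingEnd ℂ) e.1
        + 2 * (starRingEnd ℂ) (g 1 0 * p.1 + g 1 1) * ((starRingEnd ℂ) (g 1 0) * p.2) * e.2) * hdet
    · simp only [Lv, h0]
      congr 1
      rw [den_eq]
      have e1 : ‖be g p‖ ^ 2 = ‖g 1 0‖ ^ 2 * p.2 ^ 2 := by
        unfold be
        rw [norm_mul, mul_pow, RCLike.norm_conj, Complex.norm_real, Real.norm_eq_abs, sq_abs]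
      have e2 : (al g p * (starRingEnd ℂ) (be g p) * e.1).re
          = p.2 * (g 1 0 * (starRingEnd ℂ) (g 1 0 * p.1 + g 1 1) * e.1).re := by
        have : al g p * (starRingEnd ℂ) (be g p) * e.1
            = (p.2 : ℂ) * (g 1 0 * (starRingEnd ℂ) (g 1 0 * p.1 + g 1 1) * e.1) := by
          unfold al be
          simp only [map_mul, Complex.conj_conj, Complex.conj_ofReal]
          ring
        rw [this, Complex.re_ofReal_mul]
      rw [e1, e2]
      ring
  · rfl

theorem fderiv_act (g : SL2C) {p : Pt} (hp : p ∈ UH) (e : Pt) :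
    fderiv ℝ (act g) p e = Lv g p e := by
  rw [← (differentiableAt_act g hp).lineDeriv_eq_fderiv]
  exact (hasLineDerivAt_act g hp e).lineDeriv

/-- the scaled rotation in real coordinates: a real linear functional applied to the three
coordinate directions -/
theorem rot_identity (a1 a2 b1 b2 : ℝ) (F1 F2 F3 H1 H2 H3 : ℂ) :
    (((a1 ^ 2 - a2 ^ 2 - b1 ^ 2 + b2 ^ 2 : ℝ) : ℂ) * F1
        + ((2 * a1 * a2 - 2 * b1 * b2 : ℝ) : ℂ) * F2
        + ((-2 * (a1 * b1 + a2 * b2) : ℝ) : ℂ) * F3)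
      * (((a1 ^ 2 - a2 ^ 2 - b1 ^ 2 + b2 ^ 2 : ℝ) : ℂ) * H1
        + ((2 * a1 * a2 - 2 * b1 * b2 : ℝ) : ℂ) * H2
        + ((-2 * (a1 * b1 + a2 * b2) : ℝ) : ℂ) * H3)
    + (((-(2 * a1 * a2 + 2 * b1 * b2) : ℝ) : ℂ) * F1
        + ((a1 ^ 2 - a2 ^ 2 + b1 ^ 2 - b2 ^ 2 : ℝ) : ℂ) * F2
        + ((2 * (a2 * b1 - a1 * b2) : ℝ) : ℂ) * F3)
      * (((-(2 * a1 * a2 + 2 * b1 * b2) : ℝ) : ℂ) * H1
        + ((a1 ^ 2 - a2 ^ 2 + b1 ^ 2 - b2 ^ 2 : ℝ) : ℂ) * H2
        + ((2 * (a2 * b1 - a1 * b2) : ℝ) : ℂ) * H3)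
    + (((2 * (a1 * b1 - a2 * b2) : ℝ) : ℂ) * F1
        + ((2 * (a1 * b2 + a2 * b1) : ℝ) : ℂ) * F2
        + ((a1 ^ 2 + a2 ^ 2 - b1 ^ 2 - b2 ^ 2 : ℝ) : ℂ) * F3)
      * (((2 * (a1 * b1 - a2 * b2) : ℝ) : ℂ) * H1
        + ((2 * (a1 * b2 + a2 * b1) : ℝ) : ℂ) * H2
        + ((a1 ^ 2 + a2 ^ 2 - b1 ^ 2 - b2 ^ 2 : ℝ) : ℂ) * H3)
    = ((a1 ^ 2 + a2 ^ 2 + (b1 ^ 2 + b2 ^ 2) : ℝ) : ℂ) ^ 2 * (F1 * H1 + F2 * H2 + F3 * H3) := by
  push_cast
  ring

/-- decomposition of a vector along the coordinate directions -/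
theorem decomp (v : Pt) : v = v.1.re • e1 + v.1.im • e2 + v.2 • e3 := by
  refine Prod.ext ?_ ?_
  · simp only [e1, e2, e3, Prod.fst_add, Prod.smul_fst, Complex.real_smul, mul_one, smul_zero,
      add_zero]
    exact (Complex.re_add_im v.1).symm
  · simp [e1, e2, e3]

theorem clm_apply (F : Pt →L[ℝ] ℂ) (v : Pt) :
    F v = (v.1.re : ℂ) * F e1 + (v.1.im : ℂ) * F e2 + (v.2 : ℂ) * F e3 := by
  conv_lhs => rw [decomp v]
  simp only [map_add, map_smul, Complex.real_smul]

theorem sq_norm_eq (z : ℂ) : ‖z‖ ^ 2 = z.re ^ 2 + z.im ^ 2 := by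
  rw [Complex.sq_norm, Complex.normSq_apply]; ring

theorem Lv_e1 (g : SL2C) (p : Pt) :
    Lv g p e1 = (⟨((al g p).re ^ 2 - (al g p).im ^ 2 - (be g p).re ^ 2 + (be g p).im ^ 2)
        / (den g p) ^ 2,
      (2 * (al g p).re * (al g p).im - 2 * (be g p).re * (be g p).im) / (den g p) ^ 2⟩,
      (-2 * ((al g p).re * (be g p).re + (al g p).im * (be g p).im)) / (den g p) ^ 2) := by
  refine Prod.ext ?_ ?_
  · simp only [Lv, e1]
    rw [← Complex.ofReal_pow]
    apply Complex.ext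
    · rw [Complex.div_ofReal_re]
      congr 1
      simp [pow_two]
      ring
    · rw [Complex.div_ofReal_im]
      congr 1
      simp [pow_two]
      ring
  · simp only [Lv, e1]
    congr 1
    simp

theorem Lv_e2 (g : SL2C) (p : Pt) :
    Lv g p e2 = (⟨(-(2 * (al g p).re * (al g p).im + 2 * (be g p).re * (be g p).im))
        / (den g p) ^ 2,
      ((al g p).re ^ 2 - (al g p).im ^ 2 + (be g p).re ^ 2 - (be g p).im ^ 2)
        / (den g p) ^ 2⟩,
      (2 * ((al g p).im * (be g p).re - (al g p).re * (be g p).im)) / (den g p) ^ 2) := by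
  refine Prod.ext ?_ ?_
  · simp only [Lv, e2]
    rw [← Complex.ofReal_pow]
    apply Complex.ext
    · rw [Complex.div_ofReal_re]
      congr 1
      simp [pow_two]
      ring
    · rw [Complex.div_ofReal_im]
      congr 1
      simp [pow_two]
      ring
  · simp only [Lv, e2]
    congr 1
    simp
    ring

theorem Lv_e3 (g : SL2C) (p : Pt) :
    Lv g p e3 = (⟨(2 * ((al g p).re * (be g p).re - (al g p).im * (be g p).im))
        / (den g p) ^ 2,
      (2 * ((al g p).re * (be g p).im + (al g p).im * (be g p).re))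
        / (den g p) ^ 2⟩,
      ((al g p).re ^ 2 + (al g p).im ^ 2 - (be g p).re ^ 2 - (be g p).im ^ 2)
        / (den g p) ^ 2) := by
  refine Prod.ext ?_ ?_
  · simp only [Lv, e3]
    rw [← Complex.ofReal_pow]
    apply Complex.ext
    · rw [Complex.div_ofReal_re]
      congr 1
      simp
      ring
    · rw [Complex.div_ofReal_im]
      congr 1
      simp
      ring
  · simp only [Lv, e3]
    congr 1
    rw [sq_norm_eq, sq_norm_eq]
    simp
    ring

theorem den_eq_real (g : SL2C) (p : Pt) :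
    den g p = (al g p).re ^ 2 + (al g p).im ^ 2 + ((be g p).re ^ 2 + (be g p).im ^ 2) := by
  rw [den_eq, sq_norm_eq, sq_norm_eq]

/-- the derivative is a similarity of ratio `1 / den` -/
theorem sum_Lv (g : SL2C) {p : Pt} (hp : p ∈ UH) (F H : Pt →L[ℝ] ℂ) :
    F (Lv g p e1) * H (Lv g p e1) + F (Lv g p e2) * H (Lv g p e2)
      + F (Lv g p e3) * H (Lv g p e3)
      = (F e1 * H e1 + F e2 * H e2 + F e3 * H e3) / (den g p : ℂ) ^ 2 := by
  have hD : (den g p : ℂ) ≠ 0 := by exact_mod_cast (den_pos g hp).ne'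
  have key := rot_identity (al g p).re (al g p).im (be g p).re (be g p).im
    (F e1) (F e2) (F e3) (H e1) (H e2) (H e3)
  rw [← den_eq_real] at key
  rw [clm_apply F (Lv g p e1), clm_apply F (Lv g p e2), clm_apply F (Lv g p e3),
    clm_apply H (Lv g p e1), clm_apply H (Lv g p e2), clm_apply H (Lv g p e3),
    Lv_e1, Lv_e2, Lv_e3]
  rw [eq_div_iff (pow_ne_zero 2 hD)]
  have h4 : (den g p : ℂ) ^ 2 ≠ 0 := pow_ne_zero 2 hD
  have := congrArg (fun x => x / (den g p : ℂ) ^ 2) key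
  beta_reduce at this
  rw [mul_comm ((den g p : ℂ) ^ 2) (F e1 * H e1 + F e2 * H e2 + F e3 * H e3),
    mul_div_assoc, div_self h4, mul_one] at this
  rw [← this]
  push_cast
  field_simp

theorem pd_comp_act (g : SL2C) {p : Pt} (hp : p ∈ UH) {f : Pt → ℂ}
    (hf : DifferentiableAt ℝ f (act g p)) (e : Pt) :
    pd e (fun q => f (act g q)) p = fderiv ℝ f (act g p) (Lv g p e) := by
  unfold pd
  have h : (fun q => f (act g q)) = f ∘ act g := rfl
  rw [h, fderiv_comp p hf (differentiableAt_act g hp)]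
  rw [ContinuousLinearMap.comp_apply, fderiv_act g hp]

theorem gdot_comp_act (g : SL2C) {p : Pt} (hp : p ∈ UH) {f h : Pt → ℂ}
    (hf : DifferentiableAt ℝ f (act g p)) (hh : DifferentiableAt ℝ h (act g p)) :
    gdot (fun q => f (act g q)) (fun q => h (act g q)) p = gdot f h (act g p) := by
  unfold gdot
  simp only [pd_comp_act g hp hf, pd_comp_act g hp hh]
  rw [sum_Lv g hp]
  simp only [pd, act_eq]
  push_cast
  ring

theorem gsq_comp_act (g : SL2C) {p : Pt} (hp : p ∈ UH) {f : Pt → ℂ}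
    (hf : DifferentiableAt ℝ f (act g p)) :
    gsq (fun q => f (act g q)) p = gsq f (act g p) := by
  unfold gsq
  simp only [pd_comp_act g hp hf]
  have h := sum_Lv g hp (fderiv ℝ f (act g p))
    (Complex.conjCLE.toContinuousLinearMap.comp (fderiv ℝ f (act g p)))
  simp only [ContinuousLinearMap.comp_apply, ContinuousLinearEquiv.coe_coe,
    Complex.conjCLE_apply, Complex.mul_conj'] at h
  have h' : ‖fderiv ℝ f (act g p) (Lv g p e1)‖ ^ 2 + ‖fderiv ℝ f (act g p) (Lv g p e2)‖ ^ 2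
      + ‖fderiv ℝ f (act g p) (Lv g p e3)‖ ^ 2
      = (‖pd e1 f (act g p)‖ ^ 2 + ‖pd e2 f (act g p)‖ ^ 2 + ‖pd e3 f (act g p)‖ ^ 2)
        / (den g p) ^ 2 := by
    exact_mod_cast h
  rw [h']
  simp only [act_eq]
  ring

/-- real coordinates -/
noncomputable def coordEquiv : Pt ≃ₗ[ℝ] (Fin 3 → ℝ) where
  toFun p := ![p.1.re, p.1.im, p.2]
  invFun v := (⟨v 0, v 1⟩, v 2)
  map_add' p q := by
    ext i; fin_cases i <;> simp
  map_smul' c p := by
    ext i; fin_cases i <;> simp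
  left_inv p := by simp
  right_inv v := by
    ext i; fin_cases i <;> simp

/-- the real basis `e1, e2, e3` -/
noncomputable def cb : Module.Basis (Fin 3) ℝ Pt := Module.Basis.ofEquivFun coordEquiv

theorem cb_0 : cb 0 = e1 := by
  simp only [cb, Module.Basis.coe_ofEquivFun, e1]
  refine Prod.ext ?_ ?_
  · apply Complex.ext <;> simp [coordEquiv]
  · simp [coordEquiv]

theorem cb_1 : cb 1 = e2 := by
  simp only [cb, Module.Basis.coe_ofEquivFun, e2]
  refine Prod.ext ?_ ?_
  · apply Complex.ext <;> simp [coordEquiv]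
  · simp [coordEquiv]

theorem cb_2 : cb 2 = e3 := by
  simp only [cb, Module.Basis.coe_ofEquivFun, e3]
  refine Prod.ext ?_ ?_
  · apply Complex.ext <;> simp [coordEquiv]
  · simp [coordEquiv]

theorem det_fderiv_act (g : SL2C) {p : Pt} (hp : p ∈ UH) :
    (fderiv ℝ (act g) p).det = ((den g p) ^ 3)⁻¹ := by
  have hD : (den g p) ≠ 0 := (den_pos g hp).ne'
  rw [ContinuousLinearMap.det, ← LinearMap.det_toMatrix cb, Matrix.det_fin_three]
  simp only [LinearMap.toMatrix_apply, cb_0, cb_1, cb_2, ContinuousLinearMap.coe_coe,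
    fderiv_act g hp, Lv_e1, Lv_e2, Lv_e3]
  simp only [cb, Module.Basis.ofEquivFun_repr_apply, coordEquiv, LinearEquiv.coe_mk,
    LinearMap.coe_mk, AddHom.coe_mk, Matrix.cons_val_zero, Matrix.cons_val_one,
    Matrix.cons_val_two, Matrix.head_cons, Matrix.tail_cons]
  have h := den_eq_real g p
  set a1 := (al g p).re
  set a2 := (al g p).im
  set b1 := (be g p).re
  set b2 := (be g p).im
  set D := den g p
  field_simp
  rw [h]
  ring

theorem act_inv_act (g : SL2C) {p : Pt} (hp : p ∈ UH) : act g⁻¹ (act g p) = p := by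
  rw [← act_mul g⁻¹ g hp, inv_mul_cancel, act_one]

theorem act_act_inv (g : SL2C) {p : Pt} (hp : p ∈ UH) : act g (act g⁻¹ p) = p := by
  rw [← act_mul g g⁻¹ hp, mul_inv_cancel, act_one]

theorem image_act (g : SL2C) : act g '' UH = UH := by
  apply Set.Subset.antisymm
  · rintro _ ⟨p, hp, rfl⟩
    exact act_mem g hp
  · intro p hp
    exact ⟨act g⁻¹ p, act_mem g⁻¹ hp, act_act_inv g hp⟩

theorem injOn_act (g : SL2C) : Set.InjOn (act g) UH := by
  intro p hp q hq h
  rw [← act_inv_act g hp, h, act_inv_act g hq]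

theorem measurable_weight : Measurable fun p : Pt => ENNReal.ofReal ((p.2 ^ 3)⁻¹) :=
  ((measurable_snd.pow_const 3).inv).ennreal_ofReal

theorem lintegral_hyp (F : Pt → ENNReal) (hF : Measurable F) :
    ∫⁻ p, F p ∂hyp = ∫⁻ p in UH, ENNReal.ofReal ((p.2 ^ 3)⁻¹) * F p := by
  unfold hyp
  rw [lintegral_withDensity_eq_lintegral_mul _ measurable_weight hF]
  rfl

theorem measurePreserving_act (g : SL2C) : MeasurePreserving (act g) hyp hyp := by
  refine ⟨measurable_act g, ?_⟩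
  refine Measure.ext_of_lintegral _ fun F hF => ?_
  rw [lintegral_map hF (measurable_act g), lintegral_hyp _ hF,
    lintegral_hyp (fun a => F (act g a)) (hF.comp (measurable_act g))]
  have hms : MeasurableSet UH := isOpen_UH.measurableSet
  have : (volume : Measure Pt).IsAddHaarMeasure := by
    change ((volume : Measure ℂ).prod (volume : Measure ℝ)).IsAddHaarMeasure
    infer_instance
  have key := lintegral_image_eq_lintegral_abs_det_fderiv_mul (volume : Measure Pt) hms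
    (fun p hp => (differentiableAt_act g hp).hasFDerivAt.hasFDerivWithinAt) (injOn_act g)
    (fun p => ENNReal.ofReal ((p.2 ^ 3)⁻¹) * F p)
  rw [image_act] at key
  rw [key]
  refine setLIntegral_congr_fun hms fun p hp => ?_
  rw [det_fderiv_act g hp, ← mul_assoc, ← ENNReal.ofReal_mul (abs_nonneg _)]
  congr 2
  have hD : 0 < den g p := den_pos g hp
  have hp' : (0 : ℝ) < p.2 := hp
  rw [abs_of_pos (by positivity), act_eq]
  field_simp

end Pool.Agent.Helper68.Ram
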